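import Pool.Agent.W307.QF.Stm
import Pool.Agent.W262.RK.AT4
import Pool.Agent.W505.RK.LS
import Pool.Agent.W37.RK.BL2
import Pool.Agent.W655.RK.Blw

/-!
Project QF: the abstract bound for sums of products of Jacobi symbols, general weights
(adaptation of the files AT1 - AT4 of project RK).
-/

set_option autoImplicit false
set_option linter.unusedSectionVars false

namespace Pool.Agent.W349.QF

open Finset Pool.Agent.W262.RK Pool.Agent.W307.QF
open Pool.Agent.W262.RK.AT (VV YY VV_ge three_le_VV VV_le_YY one_le_log_VV VV_le log_YY_ge log_YY_le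
  log_VV_pow_le exp_neg_pow hh_mul_le hh_prod_le lk_primes squarefree_prod sum_others BW lg cl cell
  cell_sub cell_zero cell_one cell_two cell_three patterns one_le_log)

variable {ι : Type} [Fintype ι] [DecidableEq ι]

open Classical in
/-- the summand -/
noncomputable def HG (g : ι → ℕ → ℝ) (L : ι → ι → Bool) (κ : ι → ℤ) (d : ι → ℕ) : ℝ :=
  if (∀ i j, i ≠ j → (d i).Coprime (d j)) then (∏ i, g i (d i)) * Sym L κ d else 0

lemma total_eq (g : ι → ℕ → ℝ) (L : ι → ι → Bool) (κ : ι → ℤ) (z y : ℕ) :
    ∑ d ∈ Tup ι z y, (∏ i, g i (d i)) * Sym L κ d =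
      ∑ d ∈ Fintype.piFinset (fun _ : ι => (PP z y).divisors), HG g L κ d := by
  unfold Tup HG
  rw [sum_filter]

lemma abs_HG_le {g : ι → ℕ → ℝ} {L : ι → ι → Bool} {κ : ι → ℤ} {z y : ℕ}
    (hg : ∀ i, ∀ d ∈ (PP z y).divisors, 0 ≤ g i d) {d : ι → ℕ} (hd : ∀ i, d i ∈ (PP z y).divisors) :
    |HG g L κ d| ≤ ∏ i, g i (d i) := by
  have h0 : 0 ≤ ∏ i, g i (d i) := prod_nonneg fun i _ => hg i _ (hd i)
  unfold HG
  split_ifs
  · rw [abs_mul, abs_of_nonneg h0]
    exact mul_le_of_le_one_right h0 (abs_Sym_le _ _ _)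
  · simpa using h0

/-- trivial bound -/
lemma triv {g : ι → ℕ → ℝ} {L : ι → ι → Bool} {κ : ι → ℤ} {z y : ℕ}
    (hg : ∀ i, ∀ d ∈ (PP z y).divisors, 0 ≤ g i d) {t : ι → Finset ℕ} (ht : ∀ i, t i ⊆ (PP z y).divisors) :
    |∑ d ∈ Fintype.piFinset t, HG g L κ d| ≤ ∏ i, ∑ m ∈ t i, g i m := by
  rw [prod_univ_sum]
  refine (abs_sum_le_sum_abs _ _).trans (sum_le_sum fun d hd => ?_)
  rw [Fintype.mem_piFinset] at hd
  exact abs_HG_le hg fun i => ht i (hd i)

/-- the summand as a function of one variable -/
lemma HG_update {g : ι → ℕ → ℝ} {L : ι → ι → Bool} {κ : ι → ℤ} {z y : ℕ} (i : ι)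
    (hL : L i i = false) (hz : 2 ≤ z) {e : ι → ℕ} (he : ∀ b, e b ∈ (PP z y).divisors) :
    (∀ m, HG g L κ (Function.update e i m) = 0) ∨
      (∀ a b, a ≠ i → b ≠ i → a ≠ b → (e a).Coprime (e b)) ∧ ∃ t : Bool, ∀ m ∈ (PP z y).divisors,
      HG g L κ (Function.update e i m) =
        if m.Coprime (∏ b ∈ univ.erase i, e b) then
          ((∏ b ∈ univ.erase i, g b (e b)) * RR L κ i e) *
            (g i m * (Jr m (lk L i e) * Jr (κ i) m * x4 t m)) else 0 := by
  classical
  by_cases hcop : ∀ a b, a ≠ i → b ≠ i → a ≠ b → (e a).Coprime (e b)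
  · right
    refine ⟨hcop, ?_⟩
    obtain ⟨t, ht⟩ := XX_char L i e (fun b => dv_odd hz (he b))
    refine ⟨t, fun m hm => ?_⟩
    have hiff : m.Coprime (∏ b ∈ univ.erase i, e b) ↔ ∀ b, b ≠ i → m.Coprime (e b) := by
      rw [Nat.coprime_prod_right_iff]
      simp
    have hiff2 : (∀ a b, a ≠ b → (Function.update e i m a).Coprime (Function.update e i m b)) ↔
        ∀ b, b ≠ i → m.Coprime (e b) := by
      constructor
      · intro h b hb
        have := h i b (Ne.symm hb)
        rwa [Function.update_self, Function.update_of_ne hb] at this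
      · intro h a b hab
        by_cases ha : a = i
        · subst ha
          rw [Function.update_self, Function.update_of_ne (Ne.symm hab)]
          exact h b (Ne.symm hab)
        · by_cases hb : b = i
          · subst hb
            rw [Function.update_self, Function.update_of_ne ha]
            exact (h a ha).symm
          · rw [Function.update_of_ne ha, Function.update_of_ne hb]
            exact hcop a b ha hb hab
    unfold HG
    by_cases h : ∀ b, b ≠ i → m.Coprime (e b)
    · rw [if_pos (hiff2.2 h), if_pos (hiff.2 h), sym_update L κ i hL, ht m (dv_odd hz hm) h,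
        ← mul_prod_erase univ _ (mem_univ i), Function.update_self]
      have : ∏ b ∈ univ.erase i, g b (Function.update e i m b) =
          ∏ b ∈ univ.erase i, g b (e b) := by
        apply prod_congr rfl
        intro b hb
        rw [Function.update_of_ne (mem_erase.1 hb).1]
      rw [this]
      ring
    · rw [if_neg (fun h' => h (hiff2.1 h')), if_neg (fun h' => h (hiff.1 h'))]
  · left
    intro m
    unfold HG
    rw [if_neg]
    intro h
    apply hcop
    intro a b ha hb hab
    have := h a b hab
    rwa [Function.update_of_ne ha, Function.update_of_ne hb] at this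

/-- the bounds used (for fixed `z`) -/
structure BG (g : ι → ℕ → ℝ) (w : ι → ℝ) (κ : ι → ℤ) (z : ℕ) (C : ℝ) : Prop where
  w0 : ∀ i, 0 < w i
  w1 : ∀ i, w i ≤ 1 / 2
  z2 : 2 ≤ z
  C1 : 1 ≤ C
  one : ∀ i, g i 1 = 1
  gb : ∀ i, GB (g i) (w i) (κ i) z C

variable {g : ι → ℕ → ℝ} {w : ι → ℝ} {L : ι → ι → Bool} {κ : ι → ℤ} {z : ℕ} {C : ℝ}

omit [Fintype ι] [DecidableEq ι] in
lemma gw_le_hh (hB : BG g w κ z C) (i : ι) {y m : ℕ} (hm : m ∈ (PP z y).divisors) :
    g i m ≤ g i m * hh m :=
  le_mul_of_one_le_right ((hB.gb i).g0 _ _ hm) (one_le_hh m)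

/-- the sum over one large variable with a nonprincipal character -/
lemma inner (hB : BG g w κ z C) (i : ι) (hL : L i i = false) {y V Y : ℕ} (hy : z < y) (hV : 2 ≤ V)
    (hVY : V ≤ Y) {e : ι → ℕ} (he : ∀ b, e b ∈ (PP z y).divisors) (hr : 1 < lk L i e) :
    |∑ m ∈ (PP z y).divisors.filter (fun m => V < m ∧ m ≤ Y), HG g L κ (Function.update e i m)| ≤
      (∏ b ∈ univ.erase i, g b (e b) * hh (e b)) *
        (C * Real.log (lk L i e) + C * (Real.log V) ^ (w i) +
          C * Real.exp (-(Real.log Y / Real.log y)) * (Real.log y) ^ 2) := by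
  have hC0 : 0 ≤ C := zero_le_one.trans hB.C1
  have hV' : 0 ≤ Real.log V := Real.log_natCast_nonneg V
  have hr' : 0 ≤ Real.log (lk L i e) := Real.log_natCast_nonneg _
  have hP0 : 0 ≤ ∏ b ∈ univ.erase i, g b (e b) * hh (e b) :=
    prod_nonneg fun b _ => mul_nonneg ((hB.gb b).g0 _ _ (he b)) (hh_nonneg _)
  have hB0 : 0 ≤ C * Real.log (lk L i e) + C * (Real.log V) ^ (w i) +
      C * Real.exp (-(Real.log Y / Real.log y)) * (Real.log y) ^ 2 := by positivity
  rcases HG_update (g := g) (κ := κ) i hL hB.z2 he with h | ⟨hcop, t, ht⟩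
  · rw [sum_eq_zero fun m _ => h m, abs_zero]
    exact mul_nonneg hP0 hB0
  · set R := ∏ b ∈ univ.erase i, e b with hR
    set P := ∏ b ∈ univ.erase i, g b (e b) with hP
    set f : ℕ → ℝ := fun m => g i m * (Jr m (lk L i e) * Jr (κ i) m * x4 t m) with hf
    have hPn : 0 ≤ P := prod_nonneg fun b _ => (hB.gb b).g0 _ _ (he b)
    have hRne : R ≠ 0 := prod_ne_zero_iff.2 fun b _ => dv_ne_zero (he b)
    have h1 : ∑ m ∈ (PP z y).divisors.filter (fun m => V < m ∧ m ≤ Y),
        HG g L κ (Function.update e i m) =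
        P * RR L κ i e * ∑ m ∈ ((PP z y).divisors.filter (fun m => m.Coprime R)).filter
          (fun m => V < m ∧ m ≤ Y), f m := by
      rw [filter_filter, mul_sum]
      have h2 : (PP z y).divisors.filter (fun m => m.Coprime R ∧ V < m ∧ m ≤ Y) =
          ((PP z y).divisors.filter (fun m => V < m ∧ m ≤ Y)).filter (fun m => m.Coprime R) := by
        rw [filter_filter]
        apply filter_congr
        intro m _
        tauto
      rw [h2]
      symm
      rw [sum_filter]
      apply sum_congr rfl
      intro m hm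
      rw [ht m (mem_filter.1 hm).1]
    set D := (PP z y).divisors.filter (fun m => m.Coprime R) with hD
    have hDs : D ⊆ (PP z y).divisors := filter_subset _ _
    have h3 : ∑ m ∈ D.filter (fun m => V < m ∧ m ≤ Y), f m =
        ∑ m ∈ D, f m - ∑ m ∈ D.filter (fun m => m ≤ V), f m - ∑ m ∈ D.filter (fun m => Y < m), f m := by
      have e1 : ∑ m ∈ D.filter (fun m => V < m ∧ m ≤ Y), f m + ∑ m ∈ D.filter (fun m => Y < m), f m =
          ∑ m ∈ D.filter (fun m => ¬ m ≤ V), f m := by
        rw [← sum_union]
        · apply sum_congr _ (fun _ _ => rfl)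
          ext m
          simp only [mem_union, mem_filter]
          constructor
          · rintro (⟨h1, h2, h3⟩ | ⟨h1, h2⟩)
            · exact ⟨h1, by omega⟩
            · exact ⟨h1, by omega⟩
          · rintro ⟨h1, h2⟩
            by_cases h3 : m ≤ Y
            · exact Or.inl ⟨h1, by omega, h3⟩
            · exact Or.inr ⟨h1, by omega⟩
        · rw [disjoint_filter]
          intro m _ h1 h2
          omega
      have e2 := sum_filter_add_sum_filter_not D (fun m => m ≤ V) f
      linarith
    have hfa : ∀ m ∈ (PP z y).divisors, |f m| ≤ g i m * hh m := by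
      intro m hm
      have g0 := (hB.gb i).g0 _ _ hm
      rw [hf]
      simp only
      rw [abs_mul, abs_of_nonneg g0]
      have : |Jr m (lk L i e) * Jr (κ i) m * x4 t m| ≤ 1 := by
        rw [abs_mul, abs_mul]
        exact mul_le_one₀ (mul_le_one₀ (abs_Jr_le _ _) (abs_nonneg _) (abs_Jr_le _ _)) (abs_nonneg _)
          (abs_x4_le _ _)
      calc g i m * |Jr m (lk L i e) * Jr (κ i) m * x4 t m| ≤ g i m * 1 :=
            mul_le_mul_of_nonneg_left this g0
        _ ≤ g i m * hh m := mul_le_mul_of_nonneg_left (one_le_hh m) g0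
    have hnn : ∀ m ∈ (PP z y).divisors, 0 ≤ g i m * hh m := fun m hm =>
      mul_nonneg ((hB.gb i).g0 _ _ hm) (hh_nonneg _)
    have h4 : |∑ m ∈ D.filter (fun m => m ≤ V), f m| ≤ C * (Real.log V) ^ (w i) := by
      refine (abs_sum_le_sum_abs _ _).trans ?_
      refine le_trans ?_ ((hB.gb i).F2 y V hy hV)
      calc ∑ m ∈ D.filter (fun m => m ≤ V), |f m| ≤ ∑ m ∈ D.filter (fun m => m ≤ V),
            g i m * hh m := sum_le_sum fun m hm => hfa m (hDs (mem_filter.1 hm).1)
        _ ≤ _ := sum_le_sum_of_subset_of_nonneg (filter_subset_filter _ hDs)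
          fun m hm _ => hnn m (mem_filter.1 hm).1
    have h5 : |∑ m ∈ D.filter (fun m => Y < m), f m| ≤
        C * Real.exp (-(Real.log Y / Real.log y)) * (Real.log y) ^ 2 := by
      refine (abs_sum_le_sum_abs _ _).trans ?_
      refine le_trans ?_ ((hB.gb i).F3 y Y hy (by omega))
      calc ∑ m ∈ D.filter (fun m => Y < m), |f m| ≤ ∑ m ∈ D.filter (fun m => Y < m),
            g i m * hh m := sum_le_sum fun m hm => hfa m (hDs (mem_filter.1 hm).1)
        _ ≤ _ := sum_le_sum_of_subset_of_nonneg (filter_subset_filter _ hDs)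
          fun m hm _ => hnn m (mem_filter.1 hm).1
    have hsq : Squarefree (lk L i e) := by
      unfold lk
      apply squarefree_prod
      · intro b _
        exact dv_squarefree (he b)
      · intro a ha b hb hab
        exact hcop a b (mem_erase.1 (mem_filter.1 ha).1).1 (mem_erase.1 (mem_filter.1 hb).1).1 hab
    have h6 : |∑ m ∈ D, f m| ≤ C * Real.log (lk L i e) * hh R :=
      (hB.gb i).E y R (lk L i e) t hy hRne hr hsq fun p hp hpr => lk_primes he hp hpr
    have h7 : hh R ≤ ∏ b ∈ univ.erase i, hh (e b) :=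
      hh_prod_le _ _ fun b _ => dv_ne_zero (he b)
    have h8 : (1 : ℝ) ≤ ∏ b ∈ univ.erase i, hh (e b) := by
      calc (1 : ℝ) = ∏ b ∈ univ.erase i, (1 : ℝ) := by simp
        _ ≤ _ := prod_le_prod (fun _ _ => zero_le_one) fun b _ => one_le_hh _
    have hRR := abs_RR_le L κ i e
    rw [h1, abs_mul, abs_mul, abs_of_nonneg hPn, prod_mul_distrib]
    set H := ∏ b ∈ univ.erase i, hh (e b) with hH
    have h9 : |∑ m ∈ D.filter (fun m => V < m ∧ m ≤ Y), f m| ≤
        H * (C * Real.log (lk L i e) + C * (Real.log V) ^ (w i) +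
          C * Real.exp (-(Real.log Y / Real.log y)) * (Real.log y) ^ 2) := by
      rw [h3]
      have a1 : |∑ m ∈ D, f m - ∑ m ∈ D.filter (fun m => m ≤ V), f m -
          ∑ m ∈ D.filter (fun m => Y < m), f m| ≤ |∑ m ∈ D, f m| +
          |∑ m ∈ D.filter (fun m => m ≤ V), f m| + |∑ m ∈ D.filter (fun m => Y < m), f m| := by
        refine (abs_sub _ _).trans ?_
        have := abs_sub (∑ m ∈ D, f m) (∑ m ∈ D.filter (fun m => m ≤ V), f m)
        linarith
      have b1 : 0 ≤ C * Real.log (lk L i e) := by positivity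
      have b2 : 0 ≤ C * (Real.log V) ^ (w i) := by positivity
      have b3 : 0 ≤ C * Real.exp (-(Real.log Y / Real.log y)) * (Real.log y) ^ 2 := by positivity
      have a2 : |∑ m ∈ D, f m| ≤ H * (C * Real.log (lk L i e)) := by
        refine h6.trans ?_
        rw [mul_comm]
        exact mul_le_mul_of_nonneg_right h7 b1
      have a3 := le_mul_of_one_le_left b2 h8
      have a4 := le_mul_of_one_le_left b3 h8
      calc _ ≤ _ := a1
        _ ≤ H * (C * Real.log (lk L i e)) + H * (C * (Real.log V) ^ (w i)) +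
            H * (C * Real.exp (-(Real.log Y / Real.log y)) * (Real.log y) ^ 2) := by linarith
        _ = _ := by ring
    calc P * |RR L κ i e| * |∑ m ∈ D.filter (fun m => V < m ∧ m ≤ Y), f m|
        ≤ P * 1 * (H * (C * Real.log (lk L i e) + C * (Real.log V) ^ (w i) +
          C * Real.exp (-(Real.log Y / Real.log y)) * (Real.log y) ^ 2)) := by
          apply mul_le_mul (mul_le_mul_of_nonneg_left hRR hPn) h9 (abs_nonneg _)
          positivity
      _ = _ := by ring

/-- the case of a maximal unlinked set of large variables and a small linked variable -/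
lemma char_case (hB : BG g w κ z C) (i : ι) (hL : L i i = false) {y V Y : ℕ} (hy : z < y)
    (hV : 2 ≤ V) (hVY : V ≤ Y) {t : ι → Finset ℕ} (ht : ∀ b, t b ⊆ (PP z y).divisors)
    (hti : t i = (PP z y).divisors.filter (fun m => V < m ∧ m ≤ Y)) (M : ℕ)
    (hlk : ∀ e ∈ Fintype.piFinset (Function.update t i {1}), 1 < lk L i e ∧ lk L i e ≤ V ^ M) :
    |∑ d ∈ Fintype.piFinset t, HG g L κ d| ≤
      (∏ b ∈ univ.erase i, ∑ m ∈ t b, g b m * hh m) *
        (C * (M * Real.log V) + C * (Real.log V) ^ (w i) +
          C * Real.exp (-(Real.log Y / Real.log y)) * (Real.log y) ^ 2) := by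
  have hC0 : 0 ≤ C := zero_le_one.trans hB.C1
  have hV' : 0 ≤ Real.log V := Real.log_natCast_nonneg V
  rw [sum_update t i]
  refine (abs_sum_le_sum_abs _ _).trans ?_
  rw [← sum_others i t (fun b m => g b m * hh m), sum_mul]
  apply sum_le_sum
  intro e he
  obtain ⟨hr1, hr2⟩ := hlk e he
  have he' : ∀ b, e b ∈ (PP z y).divisors := by
    intro b
    have := Fintype.mem_piFinset.1 he b
    by_cases hb : b = i
    · subst hb
      rw [Function.update_self, mem_singleton] at this
      rw [this]
      exact one_mem_dv z y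
    · rw [Function.update_of_ne hb] at this
      exact ht b this
  rw [hti]
  refine (inner hB i hL hy hV hVY he' hr1).trans ?_
  apply mul_le_mul_of_nonneg_left
  · have h1 : Real.log (lk L i e) ≤ M * Real.log V := by
      rw [← Real.log_pow]
      apply Real.log_le_log (by exact_mod_cast (by omega : 0 < lk L i e))
      exact_mod_cast hr2
    have h3 := mul_le_mul_of_nonneg_left h1 hC0
    linarith
  · exact prod_nonneg fun b _ => mul_nonneg ((hB.gb b).g0 _ _ (he' b)) (hh_nonneg _)

/-- the summand as a function of two linked variables -/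
lemma HG_pair (hB : BG g w κ z C) {i j : ι} (hij : i ≠ j) (hLi : L i i = false)
    (hL1 : L i j = true) (hL2 : L j i = false) {y : ℕ} {e : ι → ℕ}
    (he : ∀ b, e b ∈ (PP z y).divisors) :
    ∃ (q : ℝ) (a b : ℕ → ℝ), |q| ≤ ∏ k ∈ (univ.erase i).erase j, g k (e k) ∧
      (∀ m, |a m| ≤ 1) ∧ (∀ m, |b m| ≤ 1) ∧
      ∀ m ∈ (PP z y).divisors, ∀ n ∈ (PP z y).divisors,
        HG g L κ (Function.update (Function.update e j n) i m) =
          q * (g i m * a m) * (g j n * b n) * Jr m n := by
  classical
  have hjm : j ∈ univ.erase i := mem_erase.2 ⟨hij.symm, mem_univ j⟩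
  set q : ℝ := if (∀ a b, a ≠ i → b ≠ i → a ≠ j → b ≠ j → a ≠ b → (e a).Coprime (e b)) then
    ∏ k ∈ (univ.erase i).erase j, g k (e k) else 0 with hq
  set X' : ℕ → ℝ := fun m => ∏ b ∈ (univ.erase i).erase j,
    (if L i b then Jr m (e b) else 1) * (if L b i then Jr (e b) m else 1) with hX'
  set a : ℕ → ℝ := fun m => if (∀ b, b ≠ i → b ≠ j → m.Coprime (e b)) then X' m * Jr (κ i) m else 0
    with ha
  set b : ℕ → ℝ := fun n => if (∀ b, b ≠ i → b ≠ j → n.Coprime (e b)) then
    RR L κ i (Function.update e j n) else 0 with hb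
  have hP0 : 0 ≤ ∏ k ∈ (univ.erase i).erase j, g k (e k) :=
    prod_nonneg fun k _ => (hB.gb k).g0 _ _ (he k)
  refine ⟨q, a, b, ?_, ?_, ?_, ?_⟩
  · rw [hq]
    split_ifs
    · rw [abs_of_nonneg hP0]
    · simpa using hP0
  · intro m
    rw [ha]
    simp only
    split_ifs
    · rw [abs_mul]
      apply mul_le_one₀ _ (abs_nonneg _) (abs_Jr_le _ _)
      rw [hX']
      apply abs_prod_le_one
      intro k _
      rw [abs_mul]
      exact mul_le_one₀ (abs_ite_Jr _ _ _) (abs_nonneg _) (abs_ite_Jr _ _ _)
    · simp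
  · intro n
    rw [hb]
    simp only
    split_ifs
    · exact abs_RR_le _ _ _ _
    · simp
  · intro m hm n hn
    have hm0 := dv_ne_zero hm
    have hn0 := dv_ne_zero hn
    by_cases hmn : m.Coprime n
    · have hXX : XX L i (Function.update e j n) m = Jr m n * X' m := by
        unfold XX
        rw [← mul_prod_erase _ _ hjm, Function.update_self, hL1, hL2]
        simp only [if_true, Bool.false_eq_true, if_false, mul_one]
        rw [hX']
        congr 1
        apply prod_congr rfl
        intro k hk
        rw [Function.update_of_ne (mem_erase.1 hk).1]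
      have hgw : ∏ k, g k (Function.update (Function.update e j n) i m k) =
          g i m * (g j n * ∏ k ∈ (univ.erase i).erase j, g k (e k)) := by
        rw [← mul_prod_erase univ _ (mem_univ i), Function.update_self]
        congr 1
        rw [← mul_prod_erase _ _ hjm, Function.update_of_ne hij.symm, Function.update_self]
        congr 1
        apply prod_congr rfl
        intro k hk
        have h1 := mem_erase.1 hk
        rw [Function.update_of_ne (mem_erase.1 h1.2).1, Function.update_of_ne h1.1]
      have hcond : (∀ k l, k ≠ l → (Function.update (Function.update e j n) i m k).Coprime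
          (Function.update (Function.update e j n) i m l)) ↔
          (∀ a b, a ≠ i → b ≠ i → a ≠ j → b ≠ j → a ≠ b → (e a).Coprime (e b)) ∧
          (∀ b, b ≠ i → b ≠ j → m.Coprime (e b)) ∧ (∀ b, b ≠ i → b ≠ j → n.Coprime (e b)) := by
        have ui : ∀ v : ι → ℕ, Function.update v i m i = m := fun v => Function.update_self i m v
        constructor
        · intro h
          refine ⟨?_, ?_, ?_⟩
          · intro k l h1 h2 h3 h4 h5
            have := h k l h5
            rwa [Function.update_of_ne h1, Function.update_of_ne h3, Function.update_of_ne h2,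
              Function.update_of_ne h4] at this
          · intro k h1 h2
            have := h i k h1.symm
            rwa [Function.update_self, Function.update_of_ne h1, Function.update_of_ne h2] at this
          · intro k h1 h2
            have := h j k h2.symm
            rwa [Function.update_of_ne hij.symm, Function.update_self, Function.update_of_ne h1,
              Function.update_of_ne h2] at this
        · rintro ⟨h1, h2, h3⟩ k l hkl
          by_cases hk : k = i
          · subst hk
            rw [Function.update_self, Function.update_of_ne hkl.symm]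
            by_cases hl : l = j
            · subst hl
              rw [Function.update_self]
              exact hmn
            · rw [Function.update_of_ne hl]
              exact h2 l hkl.symm hl
          · rw [Function.update_of_ne hk]
            by_cases hl : l = i
            · subst hl
              rw [Function.update_self]
              by_cases hk' : k = j
              · subst hk'
                rw [Function.update_self]
                exact hmn.symm
              · rw [Function.update_of_ne hk']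
                exact (h2 k hk hk').symm
            · rw [Function.update_of_ne hl]
              by_cases hk' : k = j
              · subst hk'
                rw [Function.update_self, Function.update_of_ne hkl.symm]
                exact h3 l hl hkl.symm
              · rw [Function.update_of_ne hk']
                by_cases hl' : l = j
                · subst hl'
                  rw [Function.update_self]
                  exact (h3 k hk hk').symm
                · rw [Function.update_of_ne hl']
                  exact h1 k l hk hl hk' hl' hkl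
      unfold HG
      rw [sym_update L κ i hLi, hXX, hgw]
      by_cases c1 : ∀ a b, a ≠ i → b ≠ i → a ≠ j → b ≠ j → a ≠ b → (e a).Coprime (e b)
      · by_cases c2 : ∀ b, b ≠ i → b ≠ j → m.Coprime (e b)
        · by_cases c3 : ∀ b, b ≠ i → b ≠ j → n.Coprime (e b)
          · rw [if_pos (hcond.2 ⟨c1, c2, c3⟩), hq, if_pos c1, ha, hb]
            simp only
            rw [if_pos c2, if_pos c3]
            ring
          · rw [if_neg (fun h => c3 (hcond.1 h).2.2), hb]
            simp only
            rw [if_neg c3]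
            ring
        · rw [if_neg (fun h => c2 (hcond.1 h).2.1), ha]
          simp only
          rw [if_neg c2]
          ring
      · rw [if_neg (fun h => c1 (hcond.1 h).1), hq, if_neg c1]
        ring
    · rw [Jr_eq_zero hn0 hmn, mul_zero]
      unfold HG
      rw [if_neg]
      intro h
      have := h i j hij
      rw [Function.update_self, Function.update_of_ne hij.symm, Function.update_self] at this
      exact hmn this

lemma pair_inner (hB : BG g w κ z C) {C2 : ℝ} {E2 : ℕ} (h2 : BW C2 E2) {i j : ι} (hij : i ≠ j)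
    (hLi : L i i = false) (hL1 : L i j = true) (hL2 : L j i = false) {y V Y : ℕ} (hV : 2 ≤ V)
    (hVY : V ≤ Y) {e : ι → ℕ} (he : ∀ b, e b ∈ (PP z y).divisors) :
    |∑ n ∈ lg z y V Y, ∑ m ∈ lg z y V Y,
        HG g L κ (Function.update (Function.update e j n) i m)| ≤
      (∏ k ∈ (univ.erase i).erase j, g k (e k)) *
        (C2 * (Real.log Y) ^ E2 * (V : ℝ) ^ (-(1 / 6 : ℝ))) := by
  classical
  obtain ⟨q, a, b, hq, ha, hb, h⟩ := HG_pair (L := L) hB hij hLi hL1 hL2 he
  have hP0 : 0 ≤ ∏ k ∈ (univ.erase i).erase j, g k (e k) :=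
    prod_nonneg fun k _ => (hB.gb k).g0 _ _ (he k)
  set a' : ℕ → ℝ := fun m => if m ∈ lg z y V Y then g i m * a m else 0 with ha'
  set b' : ℕ → ℝ := fun m => if m ∈ lg z y V Y then g j m * b m else 0 with hb'
  have hsub : lg z y V Y ⊆ Ioc V Y := by
    intro m hm
    rw [mem_Ioc]
    exact (mem_filter.1 hm).2
  have hDv : ∀ m ∈ lg z y V Y, m ∈ (PP z y).divisors := fun m hm => (mem_filter.1 hm).1
  have bd : ∀ (k : ι) (f : ℕ → ℝ), (∀ m, |f m| ≤ 1) → ∀ m,
      |if m ∈ lg z y V Y then g k m * f m else 0| ≤ 1 / (m : ℝ) := by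
    intro k f hf m
    split_ifs with hm
    · have g0 := (hB.gb k).g0 _ _ (hDv m hm)
      rw [abs_mul, abs_of_nonneg g0]
      exact (mul_le_of_le_one_right g0 (hf m)).trans
        ((hB.gb k).g1 _ _ (hDv m hm))
    · simp
  have od : ∀ (k : ι) (f : ℕ → ℝ) (m : ℕ),
      (if m ∈ lg z y V Y then g k m * f m else 0) ≠ 0 → Odd m ∧ Squarefree m := by
    intro k f m hm
    by_cases h1 : m ∈ lg z y V Y
    · exact ⟨dv_odd hB.z2 (hDv m h1), dv_squarefree (hDv m h1)⟩
    · rw [if_neg h1] at hm
      exact absurd rfl hm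
  have hmain := h2 V Y hV hVY a' b' (bd i a ha) (bd j b hb) (od i a) (od j b)
  have heq : ∑ n ∈ lg z y V Y, ∑ m ∈ lg z y V Y,
      HG g L κ (Function.update (Function.update e j n) i m) =
      q * ∑ m ∈ Ioc V Y, ∑ n ∈ Ioc V Y, a' m * b' n * Jr m n := by
    rw [sum_comm]
    have e1 : ∑ m ∈ Ioc V Y, ∑ n ∈ Ioc V Y, a' m * b' n * Jr m n =
        ∑ m ∈ lg z y V Y, ∑ n ∈ lg z y V Y, a' m * b' n * Jr m n := by
      rw [← sum_subset hsub]
      · apply sum_congr rfl
        intro m _
        rw [← sum_subset hsub]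
        intro n _ hn
        rw [hb']
        simp only
        rw [if_neg hn]
        ring
      · intro m _ hm
        apply sum_eq_zero
        intro n _
        rw [ha']
        simp only
        rw [if_neg hm]
        ring
    rw [e1, mul_sum]
    apply sum_congr rfl
    intro m hm
    rw [mul_sum]
    apply sum_congr rfl
    intro n hn
    rw [h m (hDv m hm) n (hDv n hn), ha', hb']
    simp only
    rw [if_pos hm, if_pos hn]
    ring
  rw [heq, abs_mul]
  exact mul_le_mul hq hmain (abs_nonneg _) hP0

/-- two linked large variables -/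
lemma pair_case (hB : BG g w κ z C) {C2 : ℝ} {E2 : ℕ} (hC2 : 0 ≤ C2) (h2 : BW C2 E2) {i j : ι}
    (hij : i ≠ j) (hLi : L i i = false) (hL1 : L i j = true) (hL2 : L j i = false)
    {y V Y : ℕ} (hy : z < y) (hV : 2 ≤ V) (hVY : V ≤ Y) {t : ι → Finset ℕ}
    (ht : ∀ b, t b ⊆ (PP z y).divisors) (hti : t i = lg z y V Y) (htj : t j = lg z y V Y) :
    |∑ d ∈ Fintype.piFinset t, HG g L κ d| ≤
      (C * Real.log y) ^ (Fintype.card ι) * (C2 * (Real.log Y) ^ E2 * (V : ℝ) ^ (-(1 / 6 : ℝ))) := by
  classical
  have hC0 : 0 ≤ C := zero_le_one.trans hB.C1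
  have hly : 1 ≤ Real.log y := by
    have h3 : 3 ≤ y := by have := hB.z2; omega
    rw [Real.le_log_iff_exp_le (by exact_mod_cast (by omega : 0 < y))]
    have h1 : (3 : ℝ) ≤ y := by exact_mod_cast h3
    have h2 := Real.exp_one_lt_d9
    linarith
  have hlY : 0 ≤ Real.log Y := Real.log_natCast_nonneg Y
  rw [sum_update t i, sum_update (Function.update t i {1}) j, Function.update_of_ne hij.symm, hti, htj]
  refine (abs_sum_le_sum_abs _ _).trans ?_
  have hQ : 0 ≤ C2 * (Real.log Y) ^ E2 * (V : ℝ) ^ (-(1 / 6 : ℝ)) := by positivity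
  have hstep : ∀ e ∈ Fintype.piFinset (Function.update (Function.update t i {1}) j {1}),
      |∑ n ∈ lg z y V Y, ∑ m ∈ lg z y V Y,
        HG g L κ (Function.update (Function.update e j n) i m)| ≤
      (∏ k ∈ univ.erase j, (if k = i then 1 else g k (e k))) *
        (C2 * (Real.log Y) ^ E2 * (V : ℝ) ^ (-(1 / 6 : ℝ))) := by
    intro e he
    have he' : ∀ b, e b ∈ (PP z y).divisors := by
      intro b
      have := Fintype.mem_piFinset.1 he b
      by_cases hb : b = j
      · subst hb
        rw [Function.update_self, mem_singleton] at this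
        rw [this]
        exact one_mem_dv z y
      · rw [Function.update_of_ne hb] at this
        by_cases hb' : b = i
        · subst hb'
          rw [Function.update_self, mem_singleton] at this
          rw [this]
          exact one_mem_dv z y
        · rw [Function.update_of_ne hb'] at this
          exact ht b this
    refine (pair_inner hB h2 hij hLi hL1 hL2 hV hVY he').trans ?_
    apply mul_le_mul_of_nonneg_right _ hQ
    apply le_of_eq
    have him : i ∈ univ.erase j := mem_erase.2 ⟨hij, mem_univ i⟩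
    rw [← mul_prod_erase _ _ him, if_pos rfl, one_mul]
    have : (univ.erase i).erase j = (univ.erase j).erase i := by
      ext k
      simp only [mem_erase, mem_univ, and_true]
      tauto
    rw [this]
    apply prod_congr rfl
    intro k hk
    rw [if_neg (mem_erase.1 hk).1]
  refine (sum_le_sum hstep).trans ?_
  rw [← sum_mul, sum_others j (Function.update t i {1}) (fun k m => if k = i then 1 else g k m)]
  apply mul_le_mul_of_nonneg_right _ hQ
  have hCl : 1 ≤ C * Real.log y := by nlinarith [hB.C1]
  have hf : ∀ k ∈ univ.erase j, ∑ m ∈ Function.update t i {1} k,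
      (if k = i then 1 else g k m) ≤ C * Real.log y := by
    intro k _
    by_cases hk : k = i
    · subst hk
      rw [Function.update_self]
      simpa using hCl
    · rw [Function.update_of_ne hk]
      simp only [if_neg hk]
      calc ∑ m ∈ t k, g k m ≤ ∑ m ∈ (PP z y).divisors, g k m :=
            sum_le_sum_of_subset_of_nonneg (ht k) fun m hm _ => (hB.gb k).g0 _ _ hm
        _ ≤ ∑ m ∈ (PP z y).divisors, g k m * hh m := sum_le_sum fun m hm => gw_le_hh hB k hm
        _ ≤ C * (Real.log y) ^ (w k) := (hB.gb k).F1 y hy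
        _ ≤ C * Real.log y := by
          apply mul_le_mul_of_nonneg_left _ hC0
          calc (Real.log y) ^ (w k) ≤ (Real.log y) ^ (1 : ℝ) :=
                Real.rpow_le_rpow_of_exponent_le hly (by have := hB.w1 k; linarith)
            _ = Real.log y := Real.rpow_one _
  have hf0 : ∀ k ∈ univ.erase j, 0 ≤ ∑ m ∈ Function.update t i {1} k,
      (if k = i then 1 else g k m) := by
    intro k _
    apply sum_nonneg
    intro m hm
    by_cases hk : k = i
    · rw [if_pos hk]; exact zero_le_one
    · rw [if_neg hk]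
      rw [Function.update_of_ne hk] at hm
      exact (hB.gb k).g0 _ _ (ht k hm)
  calc ∏ k ∈ univ.erase j, ∑ m ∈ Function.update t i {1} k, (if k = i then 1 else g k m)
      ≤ ∏ k ∈ univ.erase j, (C * Real.log y) := prod_le_prod hf0 hf
    _ = (C * Real.log y) ^ (univ.erase j).card := by rw [prod_const]
    _ ≤ (C * Real.log y) ^ (Fintype.card ι) := by
      apply pow_le_pow_right₀ hCl
      exact (card_le_card (erase_subset _ _)).trans (le_of_eq card_univ)

omit [Fintype ι] [DecidableEq ι] in
lemma gh_nonneg (hB : BG g w κ z C) (k : ι) {y m : ℕ} (hm : m ∈ (PP z y).divisors) :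
    0 ≤ g k m * hh m :=
  mul_nonneg ((hB.gb k).g0 _ _ hm) (hh_nonneg _)

/-- every cell -/
lemma cs_any (hB : BG g w κ z C) {y : ℕ} (hy : z < y) (V Y : ℕ) (k : ι) (r : Fin 4) :
    ∑ m ∈ cell z y V Y r, g k m * hh m ≤ C * Real.log y := by
  have hC0 : 0 ≤ C := zero_le_one.trans hB.C1
  have hly := one_le_log hB.z2 hy
  calc ∑ m ∈ cell z y V Y r, g k m * hh m ≤ ∑ m ∈ (PP z y).divisors, g k m * hh m :=
        sum_le_sum_of_subset_of_nonneg (cell_sub _ _ _ _ _) fun m hm _ => gh_nonneg hB k hm
    _ ≤ C * (Real.log y) ^ (w k) := (hB.gb k).F1 y hy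
    _ ≤ C * Real.log y := by
      apply mul_le_mul_of_nonneg_left _ hC0
      calc (Real.log y) ^ (w k) ≤ (Real.log y) ^ (1 : ℝ) :=
            Real.rpow_le_rpow_of_exponent_le hly (by have := hB.w1 k; linarith)
        _ = Real.log y := Real.rpow_one _

/-- the cells of the kinds 0, 1, 2 -/
lemma cs_low (hB : BG g w κ z C) {y : ℕ} (hy : z < y) {V Y : ℕ} (hV : 3 ≤ V) (k : ι) {r : Fin 4}
    (hr : r ≠ 3) : ∑ m ∈ cell z y V Y r, g k m * hh m ≤
      C * (if r = 2 then (Real.log y) ^ (w k) else Real.log V) := by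
  have hC0 : 0 ≤ C := zero_le_one.trans hB.C1
  have hly := one_le_log hB.z2 hy
  have hlV : 1 ≤ Real.log V := by
    rw [Real.le_log_iff_exp_le (by exact_mod_cast (by omega : 0 < V))]
    have h1 : (3 : ℝ) ≤ V := by exact_mod_cast hV
    have h2 := Real.exp_one_lt_d9
    linarith
  by_cases h2 : r = 2
  · rw [if_pos h2]
    calc ∑ m ∈ cell z y V Y r, g k m * hh m ≤ ∑ m ∈ (PP z y).divisors, g k m * hh m :=
          sum_le_sum_of_subset_of_nonneg (cell_sub _ _ _ _ _) fun m hm _ => gh_nonneg hB k hm
      _ ≤ C * (Real.log y) ^ (w k) := (hB.gb k).F1 y hy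
  · rw [if_neg h2]
    have hsub : cell z y V Y r ⊆ (PP z y).divisors.filter (fun d => d ≤ V) := by
      intro m hm
      rw [mem_filter]
      refine ⟨cell_sub _ _ _ _ _ hm, ?_⟩
      have : r = 0 ∨ r = 1 := by
        fin_cases r
        · exact Or.inl rfl
        · exact Or.inr rfl
        · exact absurd rfl h2
        · exact absurd rfl hr
      rcases this with h | h
      · subst h
        have := cell_zero hm
        omega
      · subst h
        exact (cell_one hm).2
    calc ∑ m ∈ cell z y V Y r, g k m * hh m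
        ≤ ∑ m ∈ (PP z y).divisors.filter (fun d => d ≤ V), g k m * hh m :=
          sum_le_sum_of_subset_of_nonneg hsub fun m hm _ => gh_nonneg hB k (mem_filter.1 hm).1
      _ ≤ C * (Real.log V) ^ (w k) := (hB.gb k).F2 y V hy (by omega)
      _ ≤ C * Real.log V := by
        apply mul_le_mul_of_nonneg_left _ hC0
        calc (Real.log V) ^ (w k) ≤ (Real.log V) ^ (1 : ℝ) :=
              Real.rpow_le_rpow_of_exponent_le hlV (by have := hB.w1 k; linarith)
          _ = Real.log V := Real.rpow_one _

/-- product of the sums over cells of kinds 0, 1, 2 -/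
lemma prod_low (hB : BG g w κ z C) {y : ℕ} (hy : z < y) {V Y : ℕ} (hV : 3 ≤ V) (π : ι → Fin 4)
    (s : Finset ι) (hs : ∀ k ∈ s, π k ≠ 3) :
    ∏ k ∈ s, ∑ m ∈ cell z y V Y (π k), g k m * hh m ≤
      C ^ (Fintype.card ι) * (Real.log y) ^ (∑ k ∈ s.filter (fun k => π k = 2), w k) *
        (Real.log V) ^ (Fintype.card ι) := by
  have hC0 : 0 ≤ C := zero_le_one.trans hB.C1
  have hly := one_le_log hB.z2 hy
  have hly0 : 0 < Real.log y := by linarith
  have hlV : 1 ≤ Real.log V := by
    rw [Real.le_log_iff_exp_le (by exact_mod_cast (by omega : 0 < V))]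
    have h1 : (3 : ℝ) ≤ V := by exact_mod_cast hV
    have h2 := Real.exp_one_lt_d9
    linarith
  have hcard : s.card ≤ Fintype.card ι := (card_le_card (subset_univ s)).trans (le_of_eq card_univ)
  calc ∏ k ∈ s, ∑ m ∈ cell z y V Y (π k), g k m * hh m
      ≤ ∏ k ∈ s, (C * (if π k = 2 then (Real.log y) ^ (w k) else Real.log V)) := by
        apply prod_le_prod
        · intro k _
          exact sum_nonneg fun m hm => gh_nonneg hB k (cell_sub _ _ _ _ _ hm)
        · intro k hk
          exact cs_low hB hy hV k (hs k hk)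
    _ = C ^ s.card * ((∏ k ∈ s.filter (fun k => π k = 2), (Real.log y) ^ (w k)) *
          ∏ k ∈ s.filter (fun k => ¬ π k = 2), Real.log V) := by
        rw [prod_mul_distrib, prod_const, prod_ite]
    _ ≤ C ^ (Fintype.card ι) * ((Real.log y) ^ (∑ k ∈ s.filter (fun k => π k = 2), w k) *
          (Real.log V) ^ (Fintype.card ι)) := by
        apply mul_le_mul (pow_le_pow_right₀ hB.C1 hcard) _ _ (by positivity)
        · apply mul_le_mul
          · rw [← Real.rpow_sum_of_pos hly0]
          · rw [prod_const]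
            exact pow_le_pow_right₀ hlV ((card_filter_le _ _).trans hcard)
          · positivity
          · positivity
        · apply mul_nonneg
          · exact prod_nonneg fun _ _ => by positivity
          · exact prod_nonneg fun _ _ => by positivity
    _ = _ := by ring

/-- a huge variable -/
lemma tail_case (hB : BG g w κ z C) (A : ℕ) {K : ℝ} (hK : 0 ≤ K) (π : ι → Fin 4) {k : ι}
    (hk : π k = 3) : ∃ C' : ℝ, ∀ y, z < y →
      |∑ d ∈ Fintype.piFinset (fun b => cell z y (VV A (Real.log y)) (YY A (Real.log y)) (π b)),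
        HG g L κ d| ≤ C' * (Real.log y) ^ K := by
  have hC0 : 0 ≤ C := zero_le_one.trans hB.C1
  refine ⟨C ^ (Fintype.card ι + 1) * (Fintype.card ι + 2).factorial, fun y hy => ?_⟩
  have hly := one_le_log hB.z2 hy
  have hly0 : 0 < Real.log y := by linarith
  set l := Real.log y with hl
  set V := VV A l with hV
  set Y := YY A l with hY
  refine (triv (fun i => (hB.gb i).g0 _) fun i => cell_sub _ _ _ _ _).trans ?_
  have h1 : ∏ i, ∑ m ∈ cell z y V Y (π i), g i m ≤
      ∏ i, ∑ m ∈ cell z y V Y (π i), g i m * hh m := by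
    apply prod_le_prod
    · intro i _
      exact sum_nonneg fun m hm => (hB.gb i).g0 _ _ (cell_sub _ _ _ _ _ hm)
    · intro i _
      exact sum_le_sum fun m hm => gw_le_hh hB i (cell_sub _ _ _ _ _ hm)
  refine h1.trans ?_
  rw [← mul_prod_erase univ _ (mem_univ k), hk]
  have h2 : ∑ m ∈ cell z y V Y 3, g k m * hh m ≤ C * Real.exp (-l) * l ^ 2 := by
    have hV3 := three_le_VV A l
    have hVY := VV_le_YY A l
    calc ∑ m ∈ cell z y V Y 3, g k m * hh m
        ≤ ∑ m ∈ (PP z y).divisors.filter (fun d => Y < d), g k m * hh m := by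
          apply sum_le_sum_of_subset_of_nonneg
          · intro m hm
            rw [mem_filter]
            exact ⟨cell_sub _ _ _ _ _ hm, cell_three hm⟩
          · intro m hm _
            exact gh_nonneg hB k (mem_filter.1 hm).1
      _ ≤ C * Real.exp (-(Real.log Y / Real.log y)) * (Real.log y) ^ 2 :=
          (hB.gb k).F3 y Y hy (by omega)
      _ ≤ C * Real.exp (-l) * l ^ 2 := by
          apply mul_le_mul_of_nonneg_right _ (by positivity)
          apply mul_le_mul_of_nonneg_left _ hC0
          apply Real.exp_le_exp.2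
          rw [neg_le_neg_iff, le_div_iff₀ hly0]
          have := log_YY_ge A l
          nlinarith
  have h3 : ∏ b ∈ univ.erase k, ∑ m ∈ cell z y V Y (π b), g b m * hh m ≤
      (C * l) ^ (Fintype.card ι) := by
    have hCl : 1 ≤ C * l := by nlinarith [hB.C1]
    calc _ ≤ ∏ b ∈ univ.erase k, (C * l) := by
          apply prod_le_prod
          · intro b _
            exact sum_nonneg fun m hm => gh_nonneg hB b (cell_sub _ _ _ _ _ hm)
          · intro b _
            exact cs_any hB hy V Y b (π b)
      _ = (C * l) ^ (univ.erase k).card := by rw [prod_const]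
      _ ≤ _ := by
          apply pow_le_pow_right₀ hCl
          exact (card_le_card (erase_subset _ _)).trans (le_of_eq card_univ)
  have h4 : 1 ≤ l ^ K := Real.one_le_rpow hly hK
  have h5 := exp_neg_pow (Fintype.card ι + 2) hly
  calc _ ≤ C * Real.exp (-l) * l ^ 2 * (C * l) ^ (Fintype.card ι) := by
        apply mul_le_mul h2 h3 _ (by positivity)
        exact prod_nonneg fun b _ => sum_nonneg fun m hm => gh_nonneg hB b (cell_sub _ _ _ _ _ hm)
    _ = C ^ (Fintype.card ι + 1) * (Real.exp (-l) * l ^ (Fintype.card ι + 2)) := by ring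
    _ ≤ C ^ (Fintype.card ι + 1) * (Fintype.card ι + 2).factorial :=
        mul_le_mul_of_nonneg_left h5 (by positivity)
    _ ≤ _ := le_mul_of_one_le_right (by positivity) h4

/-- two linked large variables -/
lemma link_case (hB : BG g w κ z C) {C2 : ℝ} {E2 : ℕ} (hC2 : 0 ≤ C2) (h2 : BW C2 E2)
    (hL : ∀ i, L i i = false) {A : ℕ} (hA : 6 * (Fintype.card ι + 2 * E2) ≤ A) {K : ℝ} (hK : 0 ≤ K)
    (π : ι → Fin 4) {i j : ι} (hi : π i = 2) (hj : π j = 2) (hij : L i j ≠ L j i) :
    ∃ C' : ℝ, ∀ y, z < y →
      |∑ d ∈ Fintype.piFinset (fun b => cell z y (VV A (Real.log y)) (YY A (Real.log y)) (π b)),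
        HG g L κ d| ≤ C' * (Real.log y) ^ K := by
  have hC0 : 0 ≤ C := zero_le_one.trans hB.C1
  refine ⟨C ^ (Fintype.card ι) * C2 * (A + 3) ^ E2, fun y hy => ?_⟩
  have hly := one_le_log hB.z2 hy
  have hly0 : 0 < Real.log y := by linarith
  set l := Real.log y with hl
  set V := VV A l with hV
  set Y := YY A l with hY
  have hV3 : 3 ≤ V := three_le_VV A l
  have hVY : V ≤ Y := VV_le_YY A l
  have hne : i ≠ j := by rintro rfl; exact hij rfl
  have hc2 : ∀ b, π b = 2 → cell z y V Y (π b) = lg z y V Y := fun b hb => by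
    rw [hb]; exact cell_two (by omega)
  have hmain : |∑ d ∈ Fintype.piFinset (fun b => cell z y V Y (π b)), HG g L κ d| ≤
      (C * l) ^ (Fintype.card ι) * (C2 * (Real.log Y) ^ E2 * (V : ℝ) ^ (-(1 / 6 : ℝ))) := by
    rcases h1 : L i j with _ | _
    · rcases h1' : L j i with _ | _
      · rw [h1, h1'] at hij; exact absurd rfl hij
      · exact pair_case hB hC2 h2 hne.symm (hL j) h1' h1 hy (by omega) hVY
          (fun b => cell_sub _ _ _ _ _) (hc2 j hj) (hc2 i hi)
    · rcases h1' : L j i with _ | _
      · exact pair_case hB hC2 h2 hne (hL i) h1 h1' hy (by omega) hVY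
          (fun b => cell_sub _ _ _ _ _) (hc2 i hi) (hc2 j hj)
      · rw [h1, h1'] at hij; exact absurd rfl hij
  refine hmain.trans ?_
  have h3 : Real.log Y ≤ (A + 3) * l ^ 2 := log_YY_le hly
  have h3' : 0 ≤ Real.log Y := Real.log_natCast_nonneg Y
  have h4 : (V : ℝ) ^ (-(1 / 6 : ℝ)) ≤ (l ^ (Fintype.card ι + 2 * E2))⁻¹ := by
    have h5 : l ^ (6 * (Fintype.card ι + 2 * E2)) ≤ V :=
      (pow_le_pow_right₀ hly hA).trans (VV_ge A l)
    have h6 : (0 : ℝ) < l ^ (6 * (Fintype.card ι + 2 * E2)) := by positivity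
    have h7 : (V : ℝ) ^ (-(1 / 6 : ℝ)) ≤ (l ^ (6 * (Fintype.card ι + 2 * E2))) ^ (-(1 / 6 : ℝ)) :=
      Real.rpow_le_rpow_of_nonpos h6 h5 (by norm_num)
    refine h7.trans (le_of_eq ?_)
    rw [← Real.rpow_natCast l, ← Real.rpow_mul hly0.le, ← Real.rpow_natCast l,
      ← Real.rpow_neg hly0.le]
    congr 1
    push_cast
    ring
  have h8 : (1 : ℝ) ≤ l ^ K := Real.one_le_rpow hly hK
  calc (C * l) ^ (Fintype.card ι) * (C2 * (Real.log Y) ^ E2 * (V : ℝ) ^ (-(1 / 6 : ℝ)))
      ≤ (C * l) ^ (Fintype.card ι) * (C2 * ((A + 3) * l ^ 2) ^ E2 *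
          (l ^ (Fintype.card ι + 2 * E2))⁻¹) := by
        apply mul_le_mul_of_nonneg_left _ (by positivity)
        apply mul_le_mul _ h4 (by positivity) (by positivity)
        exact mul_le_mul_of_nonneg_left (pow_le_pow_left₀ h3' h3 _) hC2
    _ = C ^ (Fintype.card ι) * C2 * (A + 3) ^ E2 := by
        rw [mul_pow, mul_pow, ← pow_mul, pow_add]
        field_simp
    _ ≤ _ := le_mul_of_one_le_right (by positivity) h8

/-- unlinked large variables: the trivial bound -/
lemma triv_case (hB : BG g w κ z C) (A : ℕ) {K : ℝ} (π : ι → Fin 4) (h3 : ∀ k, π k ≠ 3)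
    (hK : ∑ k ∈ univ.filter (fun k => π k = 2), w k < K) :
    ∃ C' : ℝ, ∀ y, z < y →
      |∑ d ∈ Fintype.piFinset (fun b => cell z y (VV A (Real.log y)) (YY A (Real.log y)) (π b)),
        HG g L κ d| ≤ C' * (Real.log y) ^ K := by
  have hC0 : 0 ≤ C := zero_le_one.trans hB.C1
  set S := ∑ k ∈ univ.filter (fun k => π k = 2), w k with hS
  obtain ⟨C1, hC1, h1⟩ := log_VV_pow_le A (Fintype.card ι) (sub_pos.2 hK)
  refine ⟨C ^ (Fintype.card ι) * C1, fun y hy => ?_⟩
  have hly := one_le_log hB.z2 hy
  have hly0 : 0 < Real.log y := by linarith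
  set l := Real.log y with hl
  set V := VV A l with hV
  set Y := YY A l with hY
  refine (triv (fun i => (hB.gb i).g0 _) fun i => cell_sub _ _ _ _ _).trans ?_
  have e1 : ∏ i, ∑ m ∈ cell z y V Y (π i), g i m ≤
      ∏ i, ∑ m ∈ cell z y V Y (π i), g i m * hh m := by
    apply prod_le_prod
    · intro i _
      exact sum_nonneg fun m hm => (hB.gb i).g0 _ _ (cell_sub _ _ _ _ _ hm)
    · intro i _
      exact sum_le_sum fun m hm => gw_le_hh hB i (cell_sub _ _ _ _ _ hm)
  refine e1.trans ((prod_low hB hy (three_le_VV A l) π univ fun k _ => h3 k).trans ?_)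
  rw [← hS]
  calc C ^ (Fintype.card ι) * l ^ S * (Real.log V) ^ (Fintype.card ι)
      ≤ C ^ (Fintype.card ι) * l ^ S * (C1 * l ^ (K - S)) :=
        mul_le_mul_of_nonneg_left (h1 l hly) (by positivity)
    _ = C ^ (Fintype.card ι) * C1 * (l ^ S * l ^ (K - S)) := by ring
    _ = _ := by rw [← Real.rpow_add hly0]; congr 2; ring

/-- all variables are 1 or large and unlinked -/
lemma diag_case (hB : BG g w κ z C) (A : ℕ) {K : ℝ} (π : ι → Fin 4)
    (h3 : ∀ k, π k = 0 ∨ π k = 2) (hK : ∑ k ∈ univ.filter (fun k => π k = 2), w k ≤ K) :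
    ∃ C' : ℝ, ∀ y, z < y →
      |∑ d ∈ Fintype.piFinset (fun b => cell z y (VV A (Real.log y)) (YY A (Real.log y)) (π b)),
        HG g L κ d| ≤ C' * (Real.log y) ^ K := by
  have hC0 : 0 ≤ C := zero_le_one.trans hB.C1
  refine ⟨C ^ (Fintype.card ι), fun y hy => ?_⟩
  have hly := one_le_log hB.z2 hy
  have hly0 : 0 < Real.log y := by linarith
  set l := Real.log y with hl
  set V := VV A l with hV
  set Y := YY A l with hY
  refine (triv (fun i => (hB.gb i).g0 _) fun i => cell_sub _ _ _ _ _).trans ?_
  have e1 : ∀ k ∈ (univ : Finset ι), ∑ m ∈ cell z y V Y (π k), g k m ≤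
      C * (if π k = 2 then l ^ (w k) else 1) := by
    intro k _
    rcases h3 k with h | h
    · rw [h, if_neg (by decide)]
      calc ∑ m ∈ cell z y V Y 0, g k m ≤ ∑ m ∈ ({1} : Finset ℕ), g k m := by
            apply sum_le_sum_of_subset_of_nonneg
            · intro m hm
              rw [mem_singleton]
              exact cell_zero hm
            · intro m hm _
              rw [mem_singleton] at hm
              rw [hm, hB.one]
              exact zero_le_one
        _ ≤ C * 1 := by
            rw [sum_singleton, hB.one, mul_one]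
            exact hB.C1
    · rw [if_pos h]
      calc ∑ m ∈ cell z y V Y (π k), g k m ≤ ∑ m ∈ cell z y V Y (π k), g k m * hh m :=
            sum_le_sum fun m hm => gw_le_hh hB k (cell_sub _ _ _ _ _ hm)
        _ ≤ ∑ m ∈ (PP z y).divisors, g k m * hh m :=
            sum_le_sum_of_subset_of_nonneg (cell_sub _ _ _ _ _) fun m hm _ => gh_nonneg hB k hm
        _ ≤ _ := (hB.gb k).F1 y hy
  calc ∏ k, ∑ m ∈ cell z y V Y (π k), g k m
      ≤ ∏ k, (C * (if π k = 2 then l ^ (w k) else 1)) := by
        apply prod_le_prod _ e1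
        intro k _
        exact sum_nonneg fun m hm => (hB.gb k).g0 _ _ (cell_sub _ _ _ _ _ hm)
    _ = C ^ (Fintype.card ι) * l ^ (∑ k ∈ univ.filter (fun k => π k = 2), w k) := by
        rw [prod_mul_distrib, prod_const, prod_ite, prod_const_one, mul_one,
          ← Real.rpow_sum_of_pos hly0, card_univ]
    _ ≤ _ := by
        apply mul_le_mul_of_nonneg_left _ (by positivity)
        exact Real.rpow_le_rpow_of_exponent_le hly hK

/-- maximal unlinked large variables and a small variable different from 1 -/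
lemma max_case (hB : BG g w κ z C) (hL : ∀ i, L i i = false) (A : ℕ) {K : ℝ} (π : ι → Fin 4)
    (h3 : ∀ k, π k ≠ 3) {i j : ι} (hi : π i = 2) (hj : π j = 1) (hij : L i j ≠ L j i)
    (hun : ∀ k, π k = 2 → L i k = L k i)
    (hK : ∑ k ∈ univ.filter (fun k => π k = 2), w k ≤ K) :
    ∃ C' : ℝ, ∀ y, z < y →
      |∑ d ∈ Fintype.piFinset (fun b => cell z y (VV A (Real.log y)) (YY A (Real.log y)) (π b)),
        HG g L κ d| ≤ C' * (Real.log y) ^ K := by
  have hC0 : 0 ≤ C := zero_le_one.trans hB.C1
  have hne : j ≠ i := by rintro rfl; exact hij rfl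
  set S := ∑ k ∈ univ.filter (fun k => π k = 2), w k with hS
  set M := Fintype.card ι with hM
  obtain ⟨C1, hC1, h1⟩ := log_VV_pow_le A (M + 1) (hB.w0 i)
  refine ⟨C ^ M * C1 * (C * (M + 1) + C + C * 2), fun y hy => ?_⟩
  have hly := one_le_log hB.z2 hy
  have hly0 : 0 < Real.log y := by linarith
  set l := Real.log y with hl
  set V := VV A l with hV
  set Y := YY A l with hY
  have hV3 : 3 ≤ V := three_le_VV A l
  have hVY : V ≤ Y := VV_le_YY A l
  have hlV : 1 ≤ Real.log V := one_le_log_VV A l
  have hcase := char_case (L := L) hB i (hL i) (V := V) (Y := Y) hy (by omega) hVY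
    (t := fun b => cell z y V Y (π b)) (fun b => cell_sub _ _ _ _ _)
    (by simp only [hi]; exact cell_two (by omega)) M (by
      intro e he
      have hmem : ∀ b, b ≠ i → e b ∈ cell z y V Y (π b) := by
        intro b hb
        have := Fintype.mem_piFinset.1 he b
        rwa [Function.update_of_ne hb] at this
      have hjf : j ∈ (univ.erase i).filter (fun b => L i b ≠ L b i) := by
        rw [mem_filter, mem_erase]
        exact ⟨⟨hne, mem_univ j⟩, hij⟩
      have hje : 1 < e j ∧ e j ≤ V := by
        have := hmem j hne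
        rw [hj] at this
        exact cell_one this
      have hpos : ∀ b ∈ (univ.erase i).filter (fun b => L i b ≠ L b i), 0 < e b ∧ e b ≤ V := by
        intro b hb
        rw [mem_filter, mem_erase] at hb
        have hm := hmem b hb.1.1
        refine ⟨dv_pos (cell_sub _ _ _ _ _ hm), ?_⟩
        have h2 : π b ≠ 2 := fun h => hb.2 (hun b h)
        have : π b = 0 ∨ π b = 1 := by
          have h3b := h3 b
          revert h2 h3b
          generalize π b = r
          revert r
          decide
        rcases this with h | h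
        · rw [h] at hm
          have := cell_zero hm
          omega
        · rw [h] at hm
          exact (cell_one hm).2
      constructor
      · unfold lk
        rw [← mul_prod_erase _ _ hjf]
        have : 0 < ∏ b ∈ ((univ.erase i).filter (fun b => L i b ≠ L b i)).erase j, e b :=
          prod_pos fun b hb => (hpos b (mem_erase.1 hb).2).1
        nlinarith [hje.1]
      · unfold lk
        calc ∏ b ∈ (univ.erase i).filter (fun b => L i b ≠ L b i), e b
            ≤ ∏ b ∈ (univ.erase i).filter (fun b => L i b ≠ L b i), V :=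
              prod_le_prod' fun b hb => (hpos b hb).2
          _ = V ^ ((univ.erase i).filter (fun b => L i b ≠ L b i)).card := by rw [prod_const]
          _ ≤ V ^ M := Nat.pow_le_pow_right (by omega)
              ((card_le_card (subset_univ _)).trans (le_of_eq card_univ)))
  refine hcase.trans ?_
  have hPL := prod_low hB hy (V := V) (Y := Y) hV3 π (univ.erase i) fun k _ => h3 k
  have hsum : ∑ k ∈ (univ.erase i).filter (fun k => π k = 2), w k = S - w i := by
    have : (univ.erase i).filter (fun k => π k = 2) = (univ.filter (fun k => π k = 2)).erase i := by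
      ext k
      simp only [mem_filter, mem_erase, mem_univ, and_true, true_and]
    rw [this, hS, ← add_sum_erase _ _ (show i ∈ univ.filter (fun k => π k = 2) by
      rw [mem_filter]; exact ⟨mem_univ i, hi⟩)]
    ring
  rw [hsum] at hPL
  have hlY : l ≤ Real.log Y / l := by
    rw [le_div_iff₀ hly0]
    have := log_YY_ge A l
    nlinarith
  have hbr : C * (M * Real.log V) + C * (Real.log V) ^ (w i) +
      C * Real.exp (-(Real.log Y / Real.log y)) * (Real.log y) ^ 2 ≤
      (C * (M + 1) + C + C * 2) * Real.log V := by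
    have hM0 : (0 : ℝ) ≤ M := Nat.cast_nonneg M
    have e1 : M * Real.log V ≤ (M + 1) * Real.log V := by nlinarith
    have e2 : (Real.log V) ^ (w i) ≤ Real.log V := by
      have a3 : (Real.log V) ^ (w i) ≤ (Real.log V) ^ (1 : ℝ) :=
        Real.rpow_le_rpow_of_exponent_le hlV (by have := hB.w1 i; linarith)
      rwa [Real.rpow_one] at a3
    have e3 : Real.exp (-(Real.log Y / l)) * l ^ 2 ≤ 2 := by
      have a1 : Real.exp (-(Real.log Y / l)) ≤ Real.exp (-l) := Real.exp_le_exp.2 (by linarith)
      have a2 := exp_neg_pow 2 hly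
      have a3 : ((Nat.factorial 2 : ℕ) : ℝ) = 2 := by norm_num [Nat.factorial]
      rw [a3] at a2
      exact (mul_le_mul_of_nonneg_right a1 (by positivity)).trans a2
    have e4 : C * Real.exp (-(Real.log Y / l)) * l ^ 2 ≤ C * 2 * Real.log V := by
      have b1 : C * (Real.exp (-(Real.log Y / l)) * l ^ 2) ≤ C * 2 :=
        mul_le_mul_of_nonneg_left e3 hC0
      have b2 : C * 2 ≤ C * 2 * Real.log V := le_mul_of_one_le_right (by positivity) hlV
      calc _ = C * (Real.exp (-(Real.log Y / l)) * l ^ 2) := by ring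
        _ ≤ _ := b1.trans b2
    have e5 := mul_le_mul_of_nonneg_left e1 hC0
    have e6 := mul_le_mul_of_nonneg_left e2 hC0
    calc _ ≤ C * ((M + 1) * Real.log V) + C * Real.log V + C * 2 * Real.log V :=
          add_le_add (add_le_add e5 e6) e4
      _ = _ := by ring
  have hbr0 : 0 ≤ C * (M * Real.log V) + C * (Real.log V) ^ (w i) +
      C * Real.exp (-(Real.log Y / Real.log y)) * (Real.log y) ^ 2 := by positivity
  have hVp := h1 l hly
  calc _ ≤ (C ^ M * l ^ (S - w i) * (Real.log V) ^ M) *
        ((C * (M + 1) + C + C * 2) * Real.log V) :=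
        mul_le_mul hPL hbr hbr0 (by positivity)
    _ = C ^ M * (C * (M + 1) + C + C * 2) * l ^ (S - w i) * (Real.log V) ^ (M + 1) := by ring
    _ ≤ C ^ M * (C * (M + 1) + C + C * 2) * l ^ (S - w i) * (C1 * l ^ (w i)) :=
        mul_le_mul_of_nonneg_left hVp (by positivity)
    _ = C ^ M * C1 * (C * (M + 1) + C + C * 2) * (l ^ (S - w i) * l ^ (w i)) := by ring
    _ = C ^ M * C1 * (C * (M + 1) + C + C * 2) * l ^ S := by
        rw [← Real.rpow_add hly0]; congr 2; ring
    _ ≤ _ := by
        apply mul_le_mul_of_nonneg_left _ (by positivity)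
        exact Real.rpow_le_rpow_of_exponent_le hly hK

/-- all patterns -/
lemma pat (hB : BG g w κ z C) {C2 : ℝ} {E2 : ℕ} (hC2 : 0 ≤ C2) (h2 : BW C2 E2)
    (hL : ∀ i, L i i = false) {K : ℝ}
    (hK : ∀ U : Finset ι, (∀ i ∈ U, ∀ j ∈ U, L i j = L j i) → ∑ i ∈ U, w i ≤ K)
    (π : ι → Fin 4) : ∃ C' : ℝ, ∀ y, z < y →
      |∑ d ∈ Fintype.piFinset (fun b => cell z y (VV (6 * (Fintype.card ι + 2 * E2)) (Real.log y))
        (YY (6 * (Fintype.card ι + 2 * E2)) (Real.log y)) (π b)), HG g L κ d| ≤
        C' * (Real.log y) ^ K := by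
  have hK0 : 0 ≤ K := by simpa using hK ∅ (by simp)
  by_cases h3 : ∃ k, π k = 3
  · obtain ⟨k, hk⟩ := h3
    exact tail_case hB _ hK0 π hk
  push Not at h3
  by_cases hl : ∃ i j, π i = 2 ∧ π j = 2 ∧ L i j ≠ L j i
  · obtain ⟨i, j, hi, hj, hij⟩ := hl
    exact link_case hB hC2 h2 hL le_rfl hK0 π hi hj hij
  push Not at hl
  have hS : ∑ k ∈ univ.filter (fun k => π k = 2), w k ≤ K := by
    apply hK
    intro i hi j hj
    exact hl i j (mem_filter.1 hi).2 (mem_filter.1 hj).2
  rcases hS.lt_or_eq with hlt | heq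
  · exact triv_case hB _ π h3 hlt
  by_cases h1 : ∃ j, π j = 1
  · obtain ⟨j, hj⟩ := h1
    have hex : ∃ i, π i = 2 ∧ L i j ≠ L j i := by
      by_contra hcon
      push Not at hcon
      have hjn : j ∉ univ.filter (fun k => π k = 2) := by
        rw [mem_filter, hj]
        rintro ⟨-, h⟩
        exact absurd h (by decide)
      have := hK (insert j (univ.filter (fun k => π k = 2))) (by
        intro a ha b hb
        rw [mem_insert] at ha hb
        rcases ha with rfl | ha
        · rcases hb with rfl | hb
          · rfl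
          · exact (hcon b (mem_filter.1 hb).2).symm
        · rcases hb with rfl | hb
          · exact hcon a (mem_filter.1 ha).2
          · exact hl a b (mem_filter.1 ha).2 (mem_filter.1 hb).2)
      rw [sum_insert hjn, heq] at this
      have := hB.w0 j
      linarith
    obtain ⟨i, hi, hij⟩ := hex
    exact max_case hB hL _ π h3 hi hj hij (fun k hk => hl i k hi hk) hS
  · push Not at h1
    refine diag_case hB _ π (fun k => ?_) hS
    have a1 := h1 k
    have a3 := h3 k
    revert a1 a3
    generalize π k = r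
    revert r
    decide


/-- **The abstract bound** with general weights -/
theorem atg : Pool.Agent.W307.QF.ATG := by
  intro ι _ _ w L κ K z g C hw hL hK hz hC hone hgb
  classical
  obtain ⟨C2, E2, h2⟩ := Pool.Agent.W655.RK.blw_of (_root_.W37.RK.bl_of Pool.Agent.W505.RK.ls)
  have hB : BG g w κ z C :=
    { w0 := fun i => (hw i).1
      w1 := fun i => (hw i).2
      z2 := hz
      C1 := hC
      one := hone
      gb := hgb }
  have h2' : BW |C2| E2 := fun V Y hV hVY a b ha hb ha' hb' =>
    (h2 V Y hV hVY a b ha hb ha' hb').trans (by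
      apply mul_le_mul_of_nonneg_right _ (by positivity)
      exact mul_le_mul_of_nonneg_right (le_abs_self C2)
        (pow_nonneg (Real.log_natCast_nonneg Y) _))
  choose C' hC' using fun π : ι → Fin 4 => pat hB (abs_nonneg C2) h2' hL hK π
  refine ⟨∑ π, C' π, fun y hy => ?_⟩
  rw [total_eq, patterns z y (VV (6 * (Fintype.card ι + 2 * E2)) (Real.log y))
    (YY (6 * (Fintype.card ι + 2 * E2)) (Real.log y)), sum_mul]
  exact (abs_sum_le_sum_abs _ _).trans (sum_le_sum fun π _ => hC' π y hy)

end Pool.Agent.W349.QF
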