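import Pool.Agent.W307.QF.Stm
import Pool.Agent.Helper256.KM.Mertens

/-!
Project QF: Mertens lower bound for the sum of `(∑ j, 1 + (e j | p)) / p`.
-/

set_option autoImplicit false

namespace Pool.Agent.W349.QF

open Finset Pool.Agent.W262.RK Pool.Agent.W307.QF

theorem mert_low (z : ℕ) : ∃ C : ℝ, 0 ≤ C ∧ ∀ y : ℕ,
    Real.log (Real.log y) - C ≤ ∑ p ∈ PS z y, (1 : ℝ) / p := by
  obtain ⟨C, hC⟩ := Pool.Agent.Helper256.KM.mertens_inv
  have hM : 0 ≤ ∑ p ∈ (Finset.Icc 1 z).filter Nat.Prime, (1 : ℝ) / p :=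
    sum_nonneg fun p _ => by positivity
  refine ⟨|C| + ∑ p ∈ (Finset.Icc 1 z).filter Nat.Prime, (1 : ℝ) / p, by positivity,
    fun y => ?_⟩
  have h0 : ∑ p ∈ (Finset.Icc 1 y).filter Nat.Prime, (1 : ℝ) / p ≤
      ∑ p ∈ PS z y, (1 : ℝ) / p + ∑ p ∈ (Finset.Icc 1 z).filter Nat.Prime, (1 : ℝ) / p := by
    classical
    have hsub : (Finset.Icc 1 y).filter Nat.Prime ⊆
        PS z y ∪ (Finset.Icc 1 z).filter Nat.Prime := by
      intro p hp
      rw [mem_filter, mem_Icc] at hp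
      rw [mem_union]
      by_cases h : p ≤ z
      · right
        rw [mem_filter, mem_Icc]
        exact ⟨⟨hp.1.1, h⟩, hp.2⟩
      · left
        unfold PS
        rw [mem_filter, mem_Ioc]
        exact ⟨⟨by omega, hp.1.2⟩, hp.2⟩
    refine (sum_le_sum_of_subset_of_nonneg hsub fun p _ _ => by positivity).trans ?_
    have := sum_union_inter (s₁ := PS z y) (s₂ := (Finset.Icc 1 z).filter Nat.Prime)
      (f := fun p : ℕ => (1 : ℝ) / p)
    have h1 : 0 ≤ ∑ p ∈ PS z y ∩ (Finset.Icc 1 z).filter Nat.Prime, (1 : ℝ) / p :=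
      sum_nonneg fun p _ => by positivity
    linarith
  have hc := le_abs_self C
  rcases Nat.lt_or_ge y 3 with h3 | h3
  · have h4 : Real.log (Real.log y) ≤ 0 := by
      apply Real.log_nonpos (Real.log_natCast_nonneg y)
      rcases Nat.eq_zero_or_pos y with hy | hy
      · subst hy; simp
      · rw [Real.log_le_iff_le_exp (by exact_mod_cast hy)]
        have h5 := Real.exp_one_gt_d9
        have h6 : (y : ℝ) ≤ 2 := by exact_mod_cast (by omega : y ≤ 2)
        linarith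
    have h7 : 0 ≤ ∑ p ∈ PS z y, (1 : ℝ) / p := sum_nonneg fun p _ => by positivity
    have := abs_nonneg C
    linarith
  · have := (abs_le.1 (hC y h3)).1
    linarith

theorem re_cast (e : ℤ) (p : ℕ) : ((re e p : ℕ) : ℝ) = 1 + Jr e p := by
  unfold re Jr
  rcases jacobiSym.trichotomy e p with h | h | h
  · rw [h]; simp
  · rw [h]
    have : ((1 : ℤ) + 1).toNat = 2 := rfl
    rw [this]
    norm_num
  · rw [h]; norm_num

theorem merl_of (h : MER) : MERL := by
  intro J _ e z he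
  obtain ⟨C, hC, hlow⟩ := mert_low z
  have hj : ∀ j, ∃ D : ℝ, ∀ y : ℕ, |∑ p ∈ PS z y, Jr (e j) p / (p : ℝ)| ≤ D := by
    intro j
    rcases he j with h0 | h0
    · refine ⟨0, fun y => ?_⟩
      rw [sum_eq_zero, abs_zero]
      intro p hp
      have hp' : p.Prime := (mem_filter.1 hp).2
      rw [h0]
      unfold Jr
      rw [jacobiSym.zero_left hp'.one_lt]
      simp
    · obtain ⟨D, hD⟩ := h (e j) h0
      exact ⟨D, fun y => hD z y⟩
  choose D hD using hj
  refine ⟨(Fintype.card J : ℝ) * C + ∑ j, D j, fun y _ => ?_⟩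
  have hsum : ∑ p ∈ PS z y, ((∑ j, re (e j) p : ℕ) : ℝ) / p =
      (Fintype.card J : ℝ) * (∑ p ∈ PS z y, (1 : ℝ) / p) +
        ∑ j, ∑ p ∈ PS z y, Jr (e j) p / (p : ℝ) := by
    rw [sum_comm, mul_sum, ← sum_add_distrib]
    refine sum_congr rfl fun p _ => ?_
    push_cast
    rw [sum_congr rfl fun j _ => re_cast (e j) p, sum_add_distrib, add_div, ← sum_div]
    congr 1
    simp
    ring
  rw [hsum]
  have h1 := mul_le_mul_of_nonneg_left (hlow y) (Nat.cast_nonneg (α := ℝ) (Fintype.card J))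
  have h2 : -(∑ j, D j) ≤ ∑ j, ∑ p ∈ PS z y, Jr (e j) p / (p : ℝ) := by
    rw [← sum_neg_distrib]
    exact sum_le_sum fun j _ => (abs_le.1 (hD j y)).1
  linarith

end Pool.Agent.W349.QF
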